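import Mathlib
import Pool.Agent.N753.AC.Main
import Pool.Agent.N753.DR.PCf
import Pool.Agent.N753.SU.Od
import Pool.Agent.N73.SU.SU_RM
import Pool.Agent.N222.SU_OM
import Pool.Agent.N348.SU_UZM
import Pool.Agent.N199.SU_B
import Pool.Agent.N123.OD1
import Pool.Agent.N692.SU.OD2
import Pool.Agent.N478.SU.OD3
import Pool.Agent.N747.AC.Ram
import Pool.Agent.N61.AC.Loc

/-!
# Vojta's conjecture with multiplier ideals and truncated counting functions: one exceptional set for
# all covers of the products of lines

Let `K` be a number field, `m ≥ 1`. Let `X` be a normal projective variety over `K` and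
`π : X → (P¹)^m` a finite morphism of degree `N`. The ring `A` of the functions on `X` which are
regular over the affine space `A^m` is a normal domain, finite and of rank `N` over
`K[x_1, …, x_m]`. Let `F_1, …, F_r` be different irreducible polynomials of total degree at most five
(components of the branch divisor, or images of components of `D`) and let `D` be a reduced
effective divisor on `X` all of whose components are above the divisors `F_j = 0`; let `Y_j` be a
finite subset of `A` such that the part of `D` above `F_j = 0` is given by the equations `F_j = 0`,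
`y = 0` for `y ∈ Y_j`. Let `s_j` be the degree over `F_j = 0` of the union of the prime divisors
above `F_j = 0` which are NOT components of `D`.

If `e_V` denotes ramification indices and `R` is the part above the `F_j = 0` of the ramification
divisor `∑ (e_V - 1) V`, the push-forward of `R + D` is `∑ (N - s_j) {F_j = 0}`. So if `P` is a
closed point of `X` above `x ∈ K^m` whose residue field `L` has degree `N` over `K` (by Hilbert's
irreducibility theorem this is so for almost all `x`), then, the conjugates of `P` being the points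
above `x`, `h_{R + D}(P) = ∑_j (1 - s_j / N) ∑_i deg_{x_i} (F_j) h(x_i) + O(1)`. Likewise let `I ≠ 0`
be an ideal sheaf on `X` and `G ≠ 0` a polynomial which gives a form of multidegree
`(d_1, …, d_m)` whose inverse image is a section of `I(d_1, …, d_m)` (such a `G` exists: take the
norm of a section of a twist of `I`). Then the sum of the local heights `λ_I(P, v)` over `v ∈ S` is
at most `m_S(G, x) + O(1)`, and `λ_{I⁻}` is bounded below.

There is ONE set `E ⊆ K^m` of density zero (the proportion of the points of `E` among the points with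
`H(x_i) ≤ B` is at most `C exp (-√(log B))`) such that for ALL `X`, `π`, `F_j`, `D`, `G`, all finite
`S` and all `ε > 0` there is a constant `C` with
`h_{R + D}(P) + m_S(G, x) + Λ ∑ h_{(F', G')}(x) ≤ N_S^(1)(D, P) + d(L) + ε ∑ h(x_i) + C`
for all such points `P` above points `x` outside `E`. Here the `(F', G')` are arbitrary ideals of
codimension two of `K[x_1, …, x_m]` and `Λ ≥ 0` is arbitrary.

As `K_X = R + R' - 2 ∑ {x_i = ∞}`, where `R'` is the rest of the ramification divisor (over
`x_i = ∞` and over components of the branch divisor which are not among the `F_j`), this contains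
Vojta's inequality
`h_{K_X}(P) + ∑_{v ∈ S} λ_I(P, v) - ∑_{v ∈ S} λ_{I⁻}(P, v) ≤ d(P) + ε h_A(P) + O(1)`,
with multiplier ideals, for all ideals `I` at once, and the inequality with truncated counting
function `h_{K_X + D}(P) ≤ N_S^(1)(D, P) + d(P) + ε h_A(P) + O(1)`, whenever the push-forward of
`R'` is at most `2 N ∑ {x_i = ∞}` (in the sense of multidegrees); for example if all the components
of the branch divisor which are different from the `x_i = ∞` are of total degree at most five, their
number being arbitrary. The term with `Λ` bounds the heights relative to all divisors which are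
contracted to subsets of codimension at least two of `(P¹)^m`: the same inequalities hold for every
smooth projective variety which is birational to `X`.

Proof. Almost all `x` meet the divisor `F_j = 0` at almost all primes `v` with multiplicity one and
outside a given subset of codimension two. There `A` is, locally, regular, and the norm of a local
equation of the union of the prime divisors above `F_j = 0` which are not in `D` has order `s_j`:
this bounds the number of the primes of `L` above `v` at which `P` does not meet `D`, and so from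
below the different of `L` above `v`.
-/

set_option autoImplicit false

namespace Pool.Agent.Results.MP_8865d3_nt.AllCovers

open NumberField IsDedekindDomain

/-- The union of the prime divisors of `Spec A` above the prime divisor `F = 0` of `Spec R` on which
not all elements of `Y` vanish has degree at most `s` over `F = 0`: after inverting an element `g` of
`R` which is not divisible by `F`, the `R`-module `A / {f | Y f ⊆ √(F A)}` is generated by `s`
elements. -/
def SheetsLE {R : Type} (A : Type) [CommRing R] [CommRing A] [Algebra R A] (F : R) (Y : Finset A)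
    (s : ℕ) : Prop :=
  ∃ g : R, ¬ F ∣ g ∧ ∃ a : Fin s → A, ∀ b : A, ∃ r : Fin s → R, ∀ y ∈ Y,
    y * (algebraMap R A g * b - ∑ l, algebraMap R A (r l) * a l) ∈
      (Ideal.span {algebraMap R A F}).radical

/-- the total degree of the divisor `F = 0` of `(P¹)^m`: the sum of its degrees in the variables -/
noncomputable def totalDegree {K : Type} [Field K] {m : ℕ} (F : MvPolynomial (Fin m) K) : ℕ :=
  ∑ i, F.degreeOf i

/-- the degree in `x_i` of the push-forward `∑ (N - s_j) {F_j = 0}` of `R + D`, divided by `N` -/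
noncomputable def degree {K : Type} [Field K] {m r : ℕ} (N : ℕ)
    (F : Fin r → MvPolynomial (Fin m) K) (s : Fin r → ℕ) (i : Fin m) : ℝ :=
  ∑ j, (1 - (s j : ℝ) / N) * ((F j).degreeOf i : ℝ)

/-- the proximity function `m_S(G, x)` of the divisor `D'` of the form of multidegree
`(d_1, …, d_m)` given by the polynomial `G`: the sum, over the infinite places (with multiplicities)
and the primes in `S`, of the local heights `log (∏ max (|x_i|, 1) ^ d_i / |G(x)|)` -/
noncomputable def proximity {K : Type} [Field K] [NumberField K] {m : ℕ}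
    (S : Finset (HeightOneSpectrum (𝓞 K))) (d : Fin m → ℕ) (G : MvPolynomial (Fin m) K)
    (x : Fin m → K) : ℝ :=
  ∑ w : InfinitePlace K, (w.mult : ℝ) *
      Real.log ((∏ i, max (w (x i)) 1 ^ d i) / w (MvPolynomial.eval x G)) +
    ∑ v ∈ S, Real.log ((∏ i, max (FinitePlace.mk v (x i)) 1 ^ d i) /
      FinitePlace.mk v (MvPolynomial.eval x G))

/-- the local height at the place `v` of the point `x` relative to the ideal `(F, G)` -/
noncomputable def idealLocal {K : Type} [Field K] [NumberField K] {m : ℕ}
    (F G : MvPolynomial (Fin m) K) (x : Fin m → K) (v : K → ℝ) : ℝ :=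
  -Real.log (max (v (MvPolynomial.eval x F) / ∏ i, (max 1 (v (x i))) ^ F.degreeOf i)
    (v (MvPolynomial.eval x G) / ∏ i, (max 1 (v (x i))) ^ G.degreeOf i))

/-- the height `h_{(F, G)}(x)` of the point `x` of `(P¹)^m` relative to the ideal `(F, G)`: the sum
over all places of the local heights (if `F` and `G` do not both vanish at `x`) -/
noncomputable def idealHeight {K : Type} [Field K] [NumberField K] {m : ℕ}
    (F G : MvPolynomial (Fin m) K) (x : Fin m → K) : ℝ :=
  ∑ w : InfinitePlace K, (w.mult : ℝ) * idealLocal F G x w +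
    ∑ᶠ v : HeightOneSpectrum (𝓞 K), idealLocal F G x (FinitePlace.mk v)

/-- the logarithm of the discriminant of `L` (over `ℚ`), divided by `[L : K]` -/
noncomputable def logDisc (K L : Type) [Field K] [Field L] [NumberField L] [Algebra K L] : ℝ :=
  Real.log |(discr L : ℝ)| / Module.finrank K L

open Classical in
/-- the truncated counting function `N_S^(1)(D, P)` of the point `P` given by the homomorphism
`φ : A → L` above `x`: the sum of `log N(w) / [L : K]` over the primes `w` of `L`, not above primes
in `S`, at which `x` is integral and `P` meets `D`: for some `j` one has `|F_j(x)|_w < 1` and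
`|φ(y)|_w < 1` for all `y ∈ Y_j` -/
noncomputable def truncated {K : Type} [Field K] [NumberField K] {m r : ℕ} {A : Type} [CommRing A]
    (S : Finset (HeightOneSpectrum (𝓞 K))) (F : Fin r → MvPolynomial (Fin m) K)
    (Y : Fin r → Finset A) (x : Fin m → K) {L : Type} [Field L] [NumberField L] [Algebra K L]
    (φ : A →+* L) : ℝ :=
  (∑ᶠ w : HeightOneSpectrum (𝓞 L),
    if (∀ v ∈ S, ¬ v.asIdeal.map (algebraMap (𝓞 K) (𝓞 L)) ≤ w.asIdeal) ∧
      (∀ i, FinitePlace.mk w (algebraMap K L (x i)) ≤ 1) ∧
      ∃ j, FinitePlace.mk w (algebraMap K L (MvPolynomial.eval x (F j))) < 1 ∧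
        ∀ y ∈ Y j, FinitePlace.mk w (φ y) < 1
    then Real.log (Ideal.absNorm w.asIdeal) else 0) / Module.finrank K L

open Pool.Agent.N753.SU in
theorem stmOD : StmOD :=
  Pool.Agent.N753.SU.stmOD (Pool.Agent.N692.SU.od2 Pool.Agent.N123.OD1.od1)
    Pool.Agent.N478.SU.stmOD3

open Pool.Agent.N753.SU in
theorem stmLM : StmLM :=
  Pool.Agent.N753.SU.stmLM Pool.Agent.N348.SU.um Pool.Agent.N348.SU.zm Pool.Agent.N199.SU.stmB1
    Pool.Agent.N199.SU.stmB2 Pool.Agent.N199.SU.stmB3

open Pool.Agent.N753.DR Pool.Agent.N753.LS Polynomial in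
/-- the tuples of points of degree one -/
theorem count_deg_one {K : Type} [Field K] [NumberField K] {m : ℕ} {E : Set (Fin m → K[X])}
    {c₀ : ℝ} (h : ∀ T : ℝ, 0 ≤ T → {P | P ∈ E ∧ HT (fun _ => 1) T P}.Finite ∧
      ({P | P ∈ E ∧ HT (fun _ => 1) T P}.ncard : ℝ) ≤
        c₀ * Real.exp (dimT (fun _ : Fin m => 1) * T - √T)) (H : ℝ) (hH : 0 ≤ H) :
    (({x : Fin m → K | (fun i => minpoly K (x i)) ∈ E} ∩ {x | htm x ≤ H}).ncard : ℝ) ≤
      c₀ * Real.exp (2 * m * H - √H) := by
  obtain ⟨h1, h2⟩ := h H hH
  have hd : dimT (fun _ : Fin m => 1) = 2 * m := by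
    unfold dimT
    simp only [Nat.cast_one, Finset.sum_const, Finset.card_univ, Fintype.card_fin, nsmul_eq_mul]
    ring
  rw [hd] at h2
  refine le_trans ?_ h2
  have h3 := Set.ncard_le_ncard_of_injOn (s := {x : Fin m → K | (fun i => minpoly K (x i)) ∈ E} ∩
    {x | htm x ≤ H}) (t := {P | P ∈ E ∧ HT (fun _ => 1) H P})
    (fun x i => minpoly K (x i)) (by
      rintro x ⟨hx1, hx2⟩
      refine ⟨hx1, fun i => ?_⟩
      have hdeg : (minpoly K (x i)).natDegree = 1 := by
        rw [minpoly.eq_X_sub_C']
        exact natDegree_X_sub_C _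
      have h4 := at_of (K := K) (x i) hdeg
      rw [Module.finrank_self, Nat.cast_one, div_one] at h4
      exact atH_mono (mul_le_mul_of_nonneg_left ((le_htm x i).trans hx2) (Nat.cast_nonneg _))
        (by rw [Nat.cast_one]; exact h4)) (by
      rintro x - y - hxy
      funext i
      have h4 : minpoly K (x i) = minpoly K (y i) := congrFun hxy i
      rw [minpoly.eq_X_sub_C', minpoly.eq_X_sub_C'] at h4
      exact C_injective (sub_right_injective h4)) h1
  exact_mod_cast h3

open Pool.Agent.N753.DR in
/-- the proximity function -/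
theorem proximity_eq {K : Type} [Field K] [NumberField K] {m : ℕ}
    (S : Finset (HeightOneSpectrum (𝓞 K))) (d : Fin m → ℕ) (G : MvPolynomial (Fin m) K)
    (x : Fin m → K) :
    proximity S d G x = prZ (fun v : HeightOneSpectrum (𝓞 K) =>
      ∃ p ∈ S, v.asIdeal.comap (algebraMap (𝓞 K) (𝓞 K)) = p.asIdeal) d x
        (MvPolynomial.aeval x G) := by
  classical
  have hid : ∀ v : HeightOneSpectrum (𝓞 K),
      v.asIdeal.comap (algebraMap (𝓞 K) (𝓞 K)) = v.asIdeal := by
    intro v
    ext a
    rw [Ideal.mem_comap]
    exact Iff.rfl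
  have hZ : ∀ v : HeightOneSpectrum (𝓞 K),
      (∃ p ∈ S, v.asIdeal.comap (algebraMap (𝓞 K) (𝓞 K)) = p.asIdeal) ↔ v ∈ S := by
    intro v
    rw [hid]
    constructor
    · rintro ⟨p, hp, h⟩
      rw [HeightOneSpectrum.ext h]
      exact hp
    · intro h
      exact ⟨v, h, rfl⟩
  have hev : MvPolynomial.aeval x G = MvPolynomial.eval x G := by
    rw [MvPolynomial.aeval_def, MvPolynomial.eval, Algebra.algebraMap_self]
    rfl
  unfold proximity prZ
  rw [hev]
  congr 1
  simp only [hZ]
  rw [finsum_eq_sum_of_support_subset (s := S)]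
  · exact Finset.sum_congr rfl fun v hv => (if_pos hv).symm
  · intro v hv
    by_contra hcon
    exact hv (if_neg hcon)

open Pool.Agent.N753.SU Pool.Agent.N753.LS Pool.Agent.H691R3 in
/-- **One exceptional set for all covers of the products of lines.** Let `K` be a number field and
`m ≥ 1`. There is a set `E` of points `x = (x_1, …, x_m)` over `K` with the following properties.
(1) `E` has at most `C B ^ (2 m) exp (- √ log B)` points with `H(x_i) ≤ B` for all `i`, `B ≥ 1`
(heights relative to `K`).
(2) Let `A` be any normal domain, finite over `K[x_1, …, x_m]` and containing it, of rank `N`,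
`F_1, …, F_r` different irreducible polynomials of total degree at most five, `Y_1, …, Y_r` finite
subsets of `A` and `s_1, …, s_r ≤ N` such that the union of the prime divisors above `F_j = 0` on
which not all elements of `Y_j` vanish has degree at most `s_j` over `F_j = 0`. For every polynomial
`G ≠ 0` of degrees at most `d_i`, all finite families of pairs `(F'_l, G'_l)` of polynomials without common factors, all
finite sets `S` of primes, `Λ ≥ 0` and `ε > 0` there is `C` such that for all points `x` outside `E`
with `G(x) ≠ 0`, `F_j(x) ≠ 0`, and for all number fields `L` of degree `N` over `K` and all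
surjective homomorphisms `φ : A → L` above `x` (closed points `P` of degree `N` above `x`)
`∑ (deg_i - ε) h(x_i) + m_S(G, x) + Λ ∑ h_{(F'_l, G'_l)}(x) ≤ N_S^(1)(D, P) + d(L) + C`,
where `deg_i = ∑_j (1 - s_j / N) deg_{x_i} F_j`. -/
theorem result (K : Type) [Field K] [NumberField K] (m : ℕ) (hm : 0 < m) :
    ∃ E : Set (Fin m → K),
      (∃ C : ℝ, ∀ B : ℝ, 1 ≤ B →
        {x | x ∈ E ∧ ∀ i, Height.mulHeight₁ (x i) ≤ B}.Finite ∧
        ({x | x ∈ E ∧ ∀ i, Height.mulHeight₁ (x i) ≤ B}.ncard : ℝ) ≤
          C * B ^ (2 * m) * Real.exp (-√(Real.log B))) ∧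
      -- for all covers
      ∀ (A : Type) [CommRing A] [IsDomain A] [IsIntegrallyClosed A]
        [Algebra (MvPolynomial (Fin m) K) A] [FaithfulSMul (MvPolynomial (Fin m) K) A]
        [Module.Finite (MvPolynomial (Fin m) K) A]
        -- all divisors
        (r : ℕ) (F : Fin r → MvPolynomial (Fin m) K) (Y : Fin r → Finset A) (s : Fin r → ℕ),
        (∀ j, Irreducible (F j)) → (∀ i j, i ≠ j → ¬ Associated (F i) (F j)) →
        (∀ j, totalDegree (F j) ≤ 5) → (∀ j, SheetsLE A (F j) (Y j) (s j)) →
        (∀ j, s j ≤ Module.finrank (MvPolynomial (Fin m) K) A) →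
        -- all ideals
        ∀ (d : Fin m → ℕ) (G : MvPolynomial (Fin m) K) (t : ℕ)
        (F' G' : Fin t → MvPolynomial (Fin m) K), G ≠ 0 → (∀ i, G.degreeOf i ≤ d i) →
        (∀ l, IsRelPrime (F' l) (G' l)) →
        ∀ (S : Finset (HeightOneSpectrum (𝓞 K))) (Λ ε : ℝ), 0 ≤ Λ → 0 < ε →
        ∃ C : ℝ, ∀ x : Fin m → K, x ∉ E → (∀ j, MvPolynomial.eval x (F j) ≠ 0) →
          MvPolynomial.eval x G ≠ 0 →
          -- all closed points of degree `N` above `x`
          ∀ (L : Type) [Field L] [NumberField L] [Algebra K L] (φ : A →+* L),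
            Function.Surjective φ →
            Module.finrank K L = Module.finrank (MvPolynomial (Fin m) K) A →
            (∀ f : MvPolynomial (Fin m) K, φ (algebraMap (MvPolynomial (Fin m) K) A f) =
              algebraMap K L (MvPolynomial.eval x f)) →
            ∑ i, (degree (Module.finrank (MvPolynomial (Fin m) K) A) F s i - ε) *
                Height.logHeight₁ (x i) + proximity S d G x + Λ * ∑ l, idealHeight (F' l) (G' l) x ≤
              truncated S F Y x φ + logDisc K L + C := by
  classical
  obtain ⟨E1, hE1, hmain⟩ := all_div K Pool.Agent.N73.SURM.stmRM Pool.Agent.N348.SU.um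
    Pool.Agent.N348.SU.zm stmLM stmOD Pool.Agent.N222.SUOM.stmOM Pool.Agent.N199.SU.stmB4 m hm
  obtain ⟨E2, hE2, hidl⟩ := all_idl K Pool.Agent.N348.SU.um Pool.Agent.N348.SU.zm
    Pool.Agent.N199.SU.stmB1 Pool.Agent.N199.SU.stmB2 Pool.Agent.N199.SU.stmB3 m hm
  obtain ⟨E0, c₀, hc₀, hE0, -, -, hEP⟩ := Pool.Agent.N753.DR.univ K hm (fun _ => 1) (fun _ => le_rfl)
  obtain ⟨E3, hE3⟩ : ∃ E3 : Set (Fin m → K), E3 = {x | (fun i => minpoly K (x i)) ∈ E0} :=
    ⟨_, rfl⟩
  have hE3c : ∀ H : ℝ, 0 ≤ H → ((E3 ∩ {x | htm x ≤ H}).ncard : ℝ) ≤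
      c₀ * Real.exp (2 * m * H - √H) := by
    intro H hH
    rw [hE3]
    exact count_deg_one hE0 H hH
  have hh : ∀ z : K, hr (aff z) = Height.logHeight₁ z := fun z => hr_aff z
  refine ⟨E1 ∪ (E2 ∪ E3), ⟨4 + c₀, fun B hB => ?_⟩, ?_⟩
  · have hB0 : 0 < B := by linarith
    have hlog : 0 ≤ Real.log B := Real.log_nonneg hB
    have hset : {x : Fin m → K | x ∈ E1 ∪ (E2 ∪ E3) ∧ ∀ i, Height.mulHeight₁ (x i) ≤ B} =
        (E1 ∩ {x | htm x ≤ Real.log B}) ∪ ((E2 ∩ {x | htm x ≤ Real.log B}) ∪
          (E3 ∩ {x | htm x ≤ Real.log B})) := by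
      rw [← Set.union_inter_distrib_right, ← Set.union_inter_distrib_right]
      ext x
      simp only [Set.mem_inter_iff, Set.mem_ofPred_eq]
      refine and_congr Iff.rfl ?_
      have h1 : ∀ i, Height.mulHeight₁ (x i) ≤ B ↔ Height.logHeight₁ (x i) ≤ Real.log B := by
        intro i
        unfold Height.logHeight₁
        exact (Real.log_le_log_iff (Height.mulHeight₁_pos _) hB0).symm
      constructor
      · intro h
        exact htm_le hm fun i => (h1 i).1 (h i)
      · intro h i
        exact (h1 i).2 ((le_htm x i).trans h)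
    rw [hset]
    have hf : ∀ E : Set (Fin m → K), (E ∩ {x | htm x ≤ Real.log B}).Finite := fun E =>
      (box_fin (Real.log B)).subset Set.inter_subset_right
    refine ⟨(hf E1).union ((hf E2).union (hf E3)), ?_⟩
    have h1 := Set.ncard_union_le (E1 ∩ {x | htm x ≤ Real.log B})
      ((E2 ∩ {x | htm x ≤ Real.log B}) ∪ (E3 ∩ {x | htm x ≤ Real.log B}))
    have h2 := Set.ncard_union_le (E2 ∩ {x | htm x ≤ Real.log B}) (E3 ∩ {x | htm x ≤ Real.log B})
    have h3 : ((E1 ∩ {x | htm x ≤ Real.log B} ∪ (E2 ∩ {x | htm x ≤ Real.log B} ∪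
        E3 ∩ {x | htm x ≤ Real.log B})).ncard : ℝ) ≤
        (E1 ∩ {x | htm x ≤ Real.log B}).ncard + ((E2 ∩ {x | htm x ≤ Real.log B}).ncard +
          (E3 ∩ {x | htm x ≤ Real.log B}).ncard) := by
      exact_mod_cast h1.trans (Nat.add_le_add_left h2 _)
    refine h3.trans ((add_le_add (hE1 _ hlog) (add_le_add (hE2 _ hlog) (hE3c _ hlog))).trans
      (le_of_eq ?_))
    have h4 : Real.exp (2 * m * Real.log B - √(Real.log B)) =
        B ^ (2 * m) * Real.exp (-√(Real.log B)) := by
      rw [sub_eq_add_neg, Real.exp_add]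
      congr 1
      rw [mul_comm, Real.exp_mul, Real.exp_log hB0]
      exact_mod_cast Real.rpow_natCast B (2 * m)
    rw [h4]
    ring
  · intro A _ _ _ _ _ _ r F Y s hF hFF h5 hs hsN d G t F' G' hG hd hFG S Λ ε hΛ hε
    obtain ⟨C1, h1⟩ := Pool.Agent.N753.AC.cover Pool.Agent.N747.AC.ram
      (Pool.Agent.N459.AC.nrm Pool.Agent.N61.AC.loc) Pool.Agent.N348.SU.um hmain hidl hm A F Y s hF
      hFF h5 hs hsN S (ε := ε / 3) (by positivity)
    obtain ⟨C2, hC2, h2⟩ := Pool.Agent.N753.DR.pcPrk K m (fun _ => 1) E0 hEP K d G hG hd S (ε / 3)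
      (by positivity)
    obtain ⟨κ, hκ⟩ : ∃ κ : ℝ, κ = ε / (3 * (Λ * t + 1)) := ⟨_, rfl⟩
    have hκ0 : 0 < κ := by rw [hκ]; positivity
    have hκΛ : Λ * (t * κ) ≤ ε / 3 := by
      have e1 : κ * (Λ * t + 1) = ε / 3 := by rw [hκ]; field_simp
      linarith
    have h3 := fun l => hidl (F' l) (G' l) (hFG l) κ hκ0
    choose h0 h3 using h3
    obtain ⟨M, hM⟩ : ∃ M : ℝ, M = ∑ l, |h0 l| := ⟨_, rfl⟩
    have hMl : ∀ l, h0 l ≤ M := fun l => (le_abs_self _).trans (by
      rw [hM]
      exact Finset.single_le_sum (f := fun l => |h0 l|) (fun l _ => abs_nonneg _)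
        (Finset.mem_univ l))
    obtain ⟨C3, hC3⟩ : ∃ C3 : ℝ, C3 = ∑ x ∈ (box_fin (K := K) (m := m) M).toFinset,
      |Λ * ∑ l, idealHeight (F' l) (G' l) x| := ⟨_, rfl⟩
    have hC30 : 0 ≤ C3 := by
      rw [hC3]
      exact Finset.sum_nonneg fun x _ => abs_nonneg _
    refine ⟨C1 + Module.finrank ℚ K * C2 + C3, ?_⟩
    intro x hxE hxF hxG L _ _ _ φ hsurj hfr hcomp
    rw [Set.mem_union, Set.mem_union, not_or, not_or] at hxE
    obtain ⟨hx1, hx2, hx3⟩ := hxE
    have hnn : ∀ i, 0 ≤ Height.logHeight₁ (x i) := fun i => Height.zero_le_logHeight₁ _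
    have hsum0 : 0 ≤ ∑ i, Height.logHeight₁ (x i) := Finset.sum_nonneg fun i _ => hnn i
    have hhs : htm x ≤ ∑ i, Height.logHeight₁ (x i) := htm_le hm fun i =>
      Finset.single_le_sum (f := fun i => Height.logHeight₁ (x i)) (fun i _ => hnn i)
        (Finset.mem_univ i)
    have hht0 : 0 ≤ htm x := (hnn ⟨0, hm⟩).trans (le_htm x _)
    -- the cover
    have k1 := h1 x hx1 hx2 hxF L φ hsurj hfr hcomp
    -- the proximity
    have k2 := h2 K x (fun i => by
      rw [minpoly.eq_X_sub_C']
      exact Polynomial.natDegree_X_sub_C _) (by rw [hE3] at hx3; exact hx3) (by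
      have hev : MvPolynomial.aeval x G = MvPolynomial.eval x G := by
        rw [MvPolynomial.aeval_def, MvPolynomial.eval, Algebra.algebraMap_self]
        rfl
      rw [hev]
      exact hxG)
    replace k2 := (proximity_eq S d G x).trans_le k2
    -- the ideals
    have k3 : Λ * ∑ l, idealHeight (F' l) (G' l) x ≤ C3 + ε / 3 * htm x := by
      by_cases hcase : htm x ≤ M
      · have h8 : Λ * ∑ l, idealHeight (F' l) (G' l) x ≤ C3 := by
          refine (le_abs_self _).trans ?_
          rw [hC3]
          exact Finset.single_le_sum (f := fun x => |Λ * ∑ l, idealHeight (F' l) (G' l) x|)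
            (fun x _ => abs_nonneg _) (by
              rw [Set.Finite.mem_toFinset]
              exact hcase)
        have h9 := mul_nonneg (show 0 ≤ ε / 3 by positivity) hht0
        linarith
      · rw [not_le] at hcase
        have h8 : ∑ l, idealHeight (F' l) (G' l) x ≤ t * κ * htm x := by
          have e1 : (t : ℝ) * κ * htm x = ∑ _l : Fin t, κ * htm x := by
            rw [Finset.sum_const, Finset.card_univ, Fintype.card_fin, nsmul_eq_mul, mul_assoc]
          rw [e1]
          exact Finset.sum_le_sum fun l _ => (h3 l x hx2 ((hMl l).trans hcase.le)).2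
        have h9 := mul_le_mul_of_nonneg_left h8 hΛ
        have h10 := mul_le_mul_of_nonneg_right hκΛ hht0
        linarith
    have k4 : truncated S F Y x φ = (∑ᶠ w : HeightOneSpectrum (𝓞 L),
        if Pool.Agent.N753.AC.Hit S F Y x φ w then
          Real.log (Ideal.absNorm w.asIdeal : ℝ) else 0) / Module.finrank K L := by
      unfold truncated
      congr 1
      refine finsum_congr fun w => ?_
      by_cases h : Pool.Agent.N753.AC.Hit S F Y x φ w
      · rw [if_pos h]
        exact if_pos h
      · rw [if_neg h]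
        exact if_neg h
    have k5 : ∑ i, (degree (Module.finrank (MvPolynomial (Fin m) K) A) F s i - ε) *
        Height.logHeight₁ (x i) = ∑ i, (∑ j, (1 - (s j : ℝ) /
          Module.finrank (MvPolynomial (Fin m) K) A) * ((F j).degreeOf i : ℝ)) *
            Height.logHeight₁ (x i) - ε * ∑ i, Height.logHeight₁ (x i) := by
      rw [Finset.mul_sum, ← Finset.sum_sub_distrib]
      refine Finset.sum_congr rfl fun i _ => ?_
      unfold degree
      ring
    have k6 := mul_le_mul_of_nonneg_left hhs (show 0 ≤ ε / 3 by positivity)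
    rw [k5, k4]
    unfold logDisc
    linarith

end Pool.Agent.Results.MP_8865d3_nt.AllCovers
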