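import Mathlib
import Pool.Agent.N752.HY.Px
import Pool.Agent.N752.HY.Pl1
import Pool.Agent.N752.HY.Pl2
import Pool.Agent.N752.HY.Unp
import Pool.Agent.N752.HY.Pbc
import Pool.Agent.N752.HY.Ext4
import Pool.Agent.N752.HY.Idl

/-!
# Vojta's inequality with ALL ideals, for ALL points above almost all points of degree `r`, on all
# abelian covers of projective space

Let `k` be a number field. We consider all smooth projective varieties `X` over `k` with a morphism
`π : X → ℙ^m` such that the function field of `X` is an abelian (Kummer) extension of that of `ℙ^m`, with a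
condition only on the degrees of the components of the branch divisor which are not quadrics or unions of
hyperplanes, and
prove, for ALL nonzero ideal sheaves `I` on `X` and ALL finite sets `S'` of places,
`h_{K_X}(P) + ∑_{v ∈ S'} λ_I(P, v) ≤ ε h_A(P) + d(P) + O(1)`
for ALL points `P` of `X`, of any degree, such that `x = π(P)` is a point of degree `r` over `k` which
is not in an exceptional set `E₀` of points of `ℙ^m`. The set `E₀` depends only on `k`, `m` and `r`: it
is the same for ALL `X`, `I` and `S'`, and it has density zero among the points `x` of degree `r`. The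
correction term `∑ λ_{I^-}(P, v) ≥ - O(1)` is not needed for these points. The case `r = 1` (all
points of `X` above almost all `x` in `ℙ^m(k)`) is done for all number fields `k` and all `m ≥ 1`
(`m ≥ 2` for `k = ℚ`), the case `r ≥ 2` for `m ≥ r [k : ℚ] + 1`.

**The covers.** Let `D_j : F_j = 0` (`1 ≤ j ≤ q`), `F_j` a form of degree `κ_j` over `k`, such that
the product of the `F_j` is squarefree. Let `X₀` be a normal variety over `k` with a finite map to
`ℙ^m` such that `k(X₀)` is generated over `k(ℙ^m)` by functions `f_i`, `1 ≤ i ≤ s`, with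
`f_i ^ {E_i} = c_i ∏_j F_j ^ {a_ij} / ℓ ^ {E_i b_i}`,
`ℓ` a linear form, `c_i` a nonzero constant in `k`, `∑_j a_ij κ_j = E_i b_i` (all abelian covers with
branch divisors over `k`, if `k` contains the roots of unity; all cyclic covers `y ^ e = c F(x)`,
`e | deg F`, and all Fermat complete intersections over any `k`). The ramification index of `X₀` over
`D_j` is `e_j = lcm_i (E_i / gcd (E_i, a_ij))`, so that
`h_{K_{X₀}}(P) = (∑_j κ_j (1 - 1 / e_j) - m - 1) h(x) + O(1)`.
Let `X` be a smooth projective model of `X₀` with a morphism to `X₀`. Then `K_X` is the pull-back of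
`K_{X₀}` plus divisors which are contracted in `ℙ^m`; their heights are bounded by multiples of the
heights of `x` relative to ideals `(F'_l, G'_l)` of codimension two, which are in the theorem below with
an arbitrarily large factor `Λ`.

If `P` is a point of `X` above `x` (`ℓ(x) ≠ 0`) then the field `L = k(P)` contains `k(x)` and the
`y_i = f_i(P) ℓ(x) ^ {b_i}`, and `y_i ^ {E_i} = c_i ∏_j F_j(x) ^ {a_ij}`. Let `S` be the set of
the primes which divide the `c_i`.

**The ideals.** Let `I ≠ 0` be an ideal sheaf on `X`. If `X = X₀` is finite over `ℙ^m`, then for large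
`d` the sheaf `I ⊗ π^* O(d)` is generated by global sections `f_0 ≠ 0, f_1, …, f_U`, and
`λ_I(P, v) = log (|x|_v ^ d / max_u |f_u(P)|_v) + O_v(1)`. A section `f_0 ≠ 0` of `π^* O(d)` is integral
over `k[x_0, …, x_m]`: it satisfies a monic equation `f_0 ^ {D + 1} + ∑_i ρ_i f_0 ^ {D - i} = 0`, `ρ_i` a
form of degree `(i + 1) d` over `k`, `ρ_D ≠ 0` a power of the norm up to sign (multiply `f_0` by an integer
so that all coefficients are integral). So its value `z_0 = f_0(P)`, an element of `L`, satisfies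
`z_0 ^ {D + 1} + ∑_i ρ_i(x) z_0 ^ {D - i} = 0`, and the theorem below bounds the proximity function
`m_{S'}(z) = ∑_{w | S' ∞} log (|x|_w ^ d / max_u |z_u|_w) / [L : ℚ]` for ALL `z_0, …, z_U` in `L` such
that `z_0` has an equation of this kind. (`D = U = 0`: the forms `G(x)`.) For a general smooth projective
`X` the image in `ℙ^m` of the closed set `V(I)` has dimension less than `m`, so it is contained in a
hypersurface `G = 0` over `k`, and a power `G ^ N` belongs to `I` (locally), so that
`λ_I(P, v) ≤ N λ_G(x, v) + O_v(1)`: this is the case `D = U = 0`. The term `m_{S'}(z)` is in the theorem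
with an arbitrarily large factor `Λ`.

**The theorem.** Let `w_j = κ_j` if `κ_j ≤ 2` or if `D_j` is (over `ℂ`) a union of `κ_j` hyperplanes
any `s ≥ 1` of which have linear forms spanning a space of dimension greater than `s / 3`;
`w_j = 2 (m + 1)` if `D_j` is a union of `κ_j ≥ 3 (m + 1)` hyperplanes in general position; and
`w_j = 1` otherwise. Then for all `θ < ∑ w_j`
`(θ - ∑_j κ_j / e_j) h(x) + Λ ∑_l h_{(F'_l, G'_l)}(x) + Λ m_{S'}(z) ≤
  d(L) - d(k(x)) + ∑_{p ∈ S} log p`
for all `x` of degree `r` with `x ∉ E₀` and `h(x) > T`, with `T` depending on the `F_j`, `θ`, the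
`F'_l, G'_l`, `Λ`, the equation of `z_0` and `S'`. This is Q1 for `P` if `∑ (κ_j - w_j) ≤ m + 1`: in particular if each `D_j` is
a hyperplane, a quadric or an orbit of at most `3 m + 2` conjugate hyperplanes in general position, with
no bound for the number of the `D_j` and for the ramification.

Proof. The inequality without `m_{S'}(z)` is proved in `MP_9b9442_nt.AbelianCovers`. (1) The
proximity to `G = 0` over one field `K`: the balanced representatives of the points of `ℙ^m(K)` are
integer vectors `z` in a box, the norm of `G(x)` is a form `G'(z)` over `ℤ`. For all but few `z`,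
`|G'(z)|` is almost as large as possible and not divisible by large powers of the primes in `S'`; as
the sum of the `log |G(x)|_w` over ALL archimedean places is `log |G'(z)|`, and each `- log |G(x)|_v`,
`v` above `p`, is at most a constant times the `p`-adic valuation of `G'(z)`, this bounds the sum of the
local heights. (2) As in `AbelianCovers`, the fields of large discriminant contribute little, and the
exceptional sets of the countably many data are combined into one. (3) `|ρ_D(x)|_w` is at most a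
constant times `|z_0|_w |x|_w ^ {d D}` at all places `w` of `L`, so that `m_{S'}(z)` is bounded by the
proximity to `ρ_D = 0`, which does not depend on the field.
-/

set_option autoImplicit false

namespace Pool.Agent.Results.MP_8865d3_nt.AllIdealsAbelianCovers

open NumberField IsDedekindDomain Module MvPolynomial
open scoped LinearAlgebra.Projectivization
open Pool.Agent.Results.MP_44a246_nt.BoundedDegreeHyperplanes (height toC fieldOf alpha)
open Pool.Agent.N752.SU (spanDim Full DensityZero)
open Pool.Agent.N752.HY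
open Pool.Agent.R366.NF (idealHeight)

/-- The ramification index over `F_j = 0` of the cover `y_i ^ E_i = c_i ∏ F_j ^ a_ij`: the least
common multiple of the `E_i / gcd (E_i, a_ij)`. -/
def ram {q s : ℕ} (E : Fin s → ℕ) (a : Fin s → Fin q → ℕ) (j : Fin q) : ℕ :=
  Finset.univ.lcm fun i => E i / Nat.gcd (E i) (a i j)

lemma ram_pos {q s : ℕ} {E : Fin s → ℕ} (a : Fin s → Fin q → ℕ) (hE : ∀ i, 1 ≤ E i)
    (j : Fin q) : 1 ≤ ram E a j := by
  unfold ram
  rw [Nat.one_le_iff_ne_zero, Ne, Finset.lcm_eq_zero_iff]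
  rintro ⟨i, -, hi⟩
  have h1 : 0 < E i := hE i
  have h2 : 0 < E i / Nat.gcd (E i) (a i j) :=
    Nat.div_pos (Nat.le_of_dvd h1 (Nat.gcd_dvd_left _ _)) (Nat.gcd_pos_of_pos_left _ h1)
  omega

/-- **Vojta's inequality with all ideals for all points of all abelian covers of `ℙ^m` above almost
all points of degree `r`.** Let `η > 0`. There is `c₀ ≥ 1` with the following property. Let `k ⊆ ℂ` be a
number field, `m ≥ 1`, `r ≥ 1`, `n = r [k : ℚ]` and `α = alpha n c₀ η`; then `2 α < m` if `n ≥ 2` and
`m ≥ n + 1`. Suppose that `r = 1` and `n (m + 1) ≥ 3`, or that `n ≥ 2`, `2 α < m` and `r ≤ m + 1`.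
There is ONE set `E₀` of points of `ℙ^m` such that

(1) `E₀` has density zero among the points whose field of definition has degree `r` over `k` and whose
coordinates span a space of dimension `r` over `k`; and if `r ≤ 2` or
`r (r - 1) (2 α + 1) + r ≤ m + 1` then `E₀` and the points whose coordinates do not span a space of
dimension `r` have density zero among ALL points of degree `r` over `k`;

(2) for ALL finite families of forms `F_j` over `k` in `m + 1` variables, of degrees `κ_j`, with
squarefree product, ALL finite families of pairs of forms `F'_l, G'_l` over `k`, `F'_l` irreducible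
over `ℂ` and not a divisor of `G'_l`, ALL `D, d` and forms `ρ_0, …, ρ_D` over `k`, `ρ_i` of degree
`(i + 1) d`, `ρ_D ≠ 0`, ALL finite sets `S'` of primes, ALL natural numbers `Λ` and ALL
`θ < ∑ w_j`, `w_j` the weight of `F_j`, there is `T` such that for ALL points `x ∉ E₀` of degree `r` over
`k` whose coordinates span a space of dimension `r`, with `h(x) > T`: no `F_j(x)` is zero,
`ρ_D(x) ≠ 0`, and for ALL number fields `L ⊇ K = k(x)`, ALL finite sets `S` of primes, ALL `s`,
`E_i ≥ 1`, `a_ij ≥ 0` such that `E_i` divides `∑_j a_ij κ_j`, ALL `c_i` in `L` which are units outside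
`S`, ALL `y_i` in `L` with `y_i ^ E_i = c_i ∏_j F_j(x) ^ a_ij` (`1 ≤ i ≤ s`), that is, for ALL points
over `L` above `x` of the corresponding abelian cover with ramification indices
`e_j = lcm_i (E_i / gcd (E_i, a_ij))`, and ALL `z_0, …, z_U` in `L` with
`z_0 ^ {D + 1} + ∑_i ρ_i(x) z_0 ^ {D - i} = 0`, that is, for ALL ideals generated by sections of degree
`d`, one of which satisfies the equation with the coefficients `ρ_i`,
`(θ - ∑_j κ_j / e_j) h(x) + Λ ∑_l h_{(F'_l, G'_l)}(x) + Λ m_{S'}(z) ≤ d(L) - d(K) + ∑_{p ∈ S} log p`,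
where `m_{S'}(z) = ∑_{w | S' ∞} log (|x|_w ^ d / max_u |z_u|_w) / [L : ℚ]`. -/
theorem result : ∀ η : ℝ, 0 < η → ∃ c₀ : ℝ, 1 ≤ c₀ ∧
    ∀ (k : IntermediateField ℚ ℂ) [NumberField k] (m r n : ℕ), 1 ≤ m → 1 ≤ r →
      n = r * finrank ℚ k →
      (2 ≤ n → n + 1 ≤ m → 2 * alpha n c₀ η < m) ∧
      ((r = 1 ∧ 3 ≤ n * (m + 1)) ∨ (2 ≤ n ∧ 2 * alpha n c₀ η < m ∧ r ≤ m + 1) →
        ∃ E₀ : Set (ℙ ℂ (Fin (m + 1) → ℂ)), DensityZero (Full k m r) E₀ ∧
          ((r ≤ 2 ∨ (r : ℝ) * (r - 1) * (2 * alpha n c₀ η + 1) + r ≤ m + 1) →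
            DensityZero (All k m r) (E₀ ∪ {P | spanDim k P ≠ r})) ∧
          ∀ (q t : ℕ) (F : Fin q → MvPolynomial (Fin (m + 1)) (𝓞 k)) (κ : Fin q → ℕ)
            (F' G' : Fin t → MvPolynomial (Fin (m + 1)) (𝓞 k)) (κ' ε' : Fin t → ℕ),
            (∀ j, (F j).IsHomogeneous (κ j)) → Squarefree (∏ j, cx (F j)) →
            (∀ l, (F' l).IsHomogeneous (κ' l)) → (∀ l, (G' l).IsHomogeneous (ε' l)) →
            (∀ l, Irreducible (cx (F' l))) → (∀ l, ¬ cx (F' l) ∣ cx (G' l)) →
            ∀ (D d : ℕ) (ρ : Fin (D + 1) → MvPolynomial (Fin (m + 1)) (𝓞 k)) (S' : Finset ℕ),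
            (∀ i, (ρ i).IsHomogeneous (((i : ℕ) + 1) * d)) → ρ (Fin.last D) ≠ 0 →
            (∀ p ∈ S', p.Prime) →
            ∀ (Λ : ℕ) (θ : ℝ), θ < ∑ j, (wgt (cx (F j)) (κ j) : ℝ) → ∃ T : ℝ,
            ∀ (K : IntermediateField ℚ ℂ) (_ : NumberField K) (h : k ≤ K)
              (Q : ℙ K (Fin (m + 1) → K)), fieldOf k (toC Q) = K →
              finrank ℚ K = r * finrank ℚ k → spanDim k (toC Q) = r → toC Q ∉ E₀ →
              T < height Q →
              (∀ j, aeval Q.rep (upK h (F j)) ≠ 0) ∧
              aeval Q.rep (upK h (ρ (Fin.last D))) ≠ 0 ∧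
              ∀ (L : Type) (_ : Field L) (_ : NumberField L) (_ : Algebra K L) (S : Finset ℕ)
                (s : ℕ) (E : Fin s → ℕ) (a : Fin s → Fin q → ℕ) (c y : Fin s → L) (U : ℕ) (z : Fin (U + 1) → L),
                (∀ p ∈ S, p.Prime) → (∀ i, 1 ≤ E i) → (∀ i, E i ∣ ∑ j, a i j * κ j) →
                (∀ w : HeightOneSpectrum (𝓞 L), Outside S w → ∀ i, FinitePlace.mk w (c i) = 1) →
                (∀ i, y i ^ E i =
                  c i * ∏ j, algebraMap K L (aeval Q.rep (upK h (F j))) ^ a i j) →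
                z 0 ^ (D + 1) + ∑ i : Fin (D + 1),
                  algebraMap K L (aeval Q.rep (upK h (ρ i))) * z 0 ^ (D - (i : ℕ)) = 0 →
                (θ - ∑ j, (κ j : ℝ) / ram E a j) * height Q +
                    Λ * ∑ l, idealHeight (upK h (F' l)) (upK h (G' l)) (κ' l) (ε' l) Q.rep /
                      finrank ℚ K + Λ * proxI L S' d Q.rep z ≤
                  ldisc L - ldisc K + ∑ p ∈ S, Real.log p) := by
  intro η hη
  obtain ⟨c₀, hc₀, hmain⟩ := main5 Unp.t_UNP Pl1.t_PL1 Pl2.t_PL2 η hη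
  refine ⟨c₀, hc₀, ?_⟩
  intro k _ m r n hm hr hn
  obtain ⟨hα, hmain⟩ := hmain k m r n hm hr hn
  refine ⟨hα, fun hcase => ?_⟩
  obtain ⟨E₀, hE₀, hdens, hall, hprx⟩ := hmain hcase
  refine ⟨E₀, hE₀, hdens, ?_⟩
  intro q t F κ F' G' κ' ε' h1 h2 h3 h4 h5 h6 D d ρ S' hρ hρ0 hS' Λ θ hθ
  have hθw : θ < wsum F κ := hθ
  set δ : ℝ := (wsum F κ - θ) / 4 with hδ
  have hδ0 : 0 < δ := by rw [hδ]; linarith
  obtain ⟨T₀, hT₀⟩ := hall q t F κ F' G' κ' ε' ⟨h1, h2, h3, h4, h5, h6⟩ Λ
    (θ + 3 * δ) (by rw [hδ]; linarith)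
  have hρD : (ρ (Fin.last D)).IsHomogeneous ((D + 1) * d) := hρ (Fin.last D)
  obtain ⟨T₁, hT₁⟩ := hprx (ρ (Fin.last D)) ((D + 1) * d) hρD hρ0 S' hS'
    (δ / ((Λ : ℝ) + 1)) (by positivity)
  obtain ⟨C, hC0, hC⟩ := Int.prox_root k ρ hρ
  choose A hA0 hA using fun j => Ext4.prox_ge k (F j) (κ j) (h1 j)
  refine ⟨max (max T₀ T₁) (max ((∑ j, A j) / δ) (Λ * C / δ)),
    fun K hK h Q hf hd hs hQE hTQ => ?_⟩
  have hTT0 : T₀ < height Q := ((le_max_left _ _).trans (le_max_left _ _)).trans_lt hTQ
  have hTT1 : T₁ < height Q := ((le_max_right _ _).trans (le_max_left _ _)).trans_lt hTQ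
  have hTT2 : (∑ j, A j) / δ < height Q :=
    ((le_max_left _ _).trans (le_max_right _ _)).trans_lt hTQ
  have hTT3 : Λ * C / δ < height Q :=
    ((le_max_right _ _).trans (le_max_right _ _)).trans_lt hTQ
  obtain ⟨h7, h8⟩ := hT₀ K hK h Q hf hQE hTT0
  obtain ⟨h7', h8'⟩ := hT₁ K hK h Q hf hQE hTT1
  refine ⟨h7, h7', fun L i1 i2 i3 S s E a c y U z hS hE hdiv hc hy hz => ?_⟩
  have hAδ : ∑ j, A j < δ * height Q := by
    rw [div_lt_iff₀ hδ0] at hTT2
    linarith
  have hCδ : Λ * C < δ * height Q := by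
    rw [div_lt_iff₀ hδ0] at hTT3
    linarith
  have hht : 0 ≤ height Q := by
    rw [← hgt_eq]
    exact hgt_nonneg Q.rep
  have h9 := Ext4.ext4 (K := K) (L := L) (F := fun j => upK h (F j)) (κ := κ) (x := Q.rep)
    (S := S) (e := ram E a) (fun j => (h1 j).map _) Q.rep_nonzero h7 hS (ram_pos a hE)
    (fun w hw j _ hz => Ext4.abel_int (fun j => (h1 j).map _) Q.rep_nonzero h7 E a hE hdiv c y hy
      w (fun i => hc w hw i) j hz)
  have h10 : -(∑ j, A j) ≤
      ∑ j, 1 / (ram E a j : ℝ) * prox L S (upK h (F j)) (κ j) Q.rep := by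
    rw [← Finset.sum_neg_distrib]
    refine Finset.sum_le_sum fun j _ => ?_
    have h11 := hA j K hK h L i1 i2 i3 S Q.rep Q.rep_nonzero (h7 j)
    have h12 : (1 : ℝ) ≤ ram E a j := by exact_mod_cast ram_pos a hE j
    have h13 : 1 / (ram E a j : ℝ) ≤ 1 := by
      rw [div_le_one (by linarith)]
      exact h12
    have h14 : 0 ≤ 1 / (ram E a j : ℝ) := by positivity
    have h15 := mul_le_mul_of_nonneg_left h11 h14
    have h16 := mul_le_mul_of_nonneg_right h13 (hA0 j)
    linarith
  rw [hgt_eq] at h8 h9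
  have h17 : (Λ : ℝ) * ∑ l, idealHeight (upK h (F' l)) (upK h (G' l)) (κ' l) (ε' l) Q.rep /
      finrank ℚ K = Λ * ((∑ l, idealHeight (upK h (F' l)) (upK h (G' l)) (κ' l) (ε' l) Q.rep) /
        finrank ℚ K) := by
    rw [Finset.sum_div]
  rw [h17]
  have h18 : (θ - ∑ j, (κ j : ℝ) / ram E a j) * height Q =
      (θ + 3 * δ) * height Q - 3 * (δ * height Q) -
        (∑ j, (κ j : ℝ) / ram E a j) * height Q := by
    ring
  rw [h18]
  -- the proximity function of the section
  have hz0 : z 0 ≠ 0 := Idl.z_ne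
    (ρ := fun i => algebraMap K L (aeval Q.rep (upK h (ρ i)))) ((map_ne_zero _).2 h7') hz
  have h19 := (Idl.proxI_le (K := K) Q.rep_nonzero hS' z hz0 d).trans
    (hC K hK h L i1 i2 i3 S' Q.rep (z 0) Q.rep_nonzero hS' h7' hz)
  rw [Pbc.t_PBC K inferInstance inferInstance L i1 i2 i3 S' hS' m ((D + 1) * d)
    (upK h (ρ (Fin.last D))) Q.rep Q.rep_nonzero h7'] at h19
  have hΛ : (0 : ℝ) ≤ Λ := Nat.cast_nonneg Λ
  have h20 : (Λ : ℝ) * proxI L S' d Q.rep z ≤ Λ * (δ / ((Λ : ℝ) + 1) * height Q + C) :=
    mul_le_mul_of_nonneg_left (h19.trans (by linarith)) hΛ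
  have h21 : (Λ : ℝ) * (δ / ((Λ : ℝ) + 1) * height Q) ≤ δ * height Q := by
    have h22 : (Λ : ℝ) * (δ / ((Λ : ℝ) + 1) * height Q) =
        (Λ / ((Λ : ℝ) + 1)) * (δ * height Q) := by
      field_simp
    rw [h22]
    refine mul_le_of_le_one_left (by positivity) ?_
    rw [div_le_one (by positivity)]
    linarith
  rw [mul_add] at h20
  linarith

end Pool.Agent.Results.MP_8865d3_nt.AllIdealsAbelianCovers
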